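import Pool.Agent.Helper4.CD.St

/-!
# Project CD (MP_a41ee4_co), module PRB: the asymptotic bound implies the exact bound
-/

set_option autoImplicit false

namespace Pool.Agent.Helper44.CD

open Pool.Agent.Helper4.CD
open Module

/-- there is a spindle in dimension `D` with `2 D` facets and circuit length at least `a` -/
private def LB (K : Type) [Field K] [LinearOrder K] (D a : ℕ) : Prop :=
  ∃ (c : Fin (2 * D) → Dual K (Fin D → K)) (u v : Fin D → K), Spindle c u v ∧
    ∀ n, Walk c (rhs c u v) n u v → a ≤ n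

private theorem lb_add (h1 : StPRA) (K : Type) [Field K] [LinearOrder K] [IsStrictOrderedRing K] {D1 D2 a b : ℕ}
    (hx : LB K D1 a) (hy : LB K D2 b) : LB K (D1 + D2) (a + b) :=
  h1 K D1 D2 a b hx hy

private theorem lb_zero (K : Type) [Field K] [LinearOrder K] [IsStrictOrderedRing K] : LB K 0 0 :=
  ⟨fun _ => 0, 0, 0, ⟨fun k => k.elim0, fun _ _ => Subsingleton.elim _ _,
    fun _ _ => Subsingleton.elim _ _⟩, fun _ _ => Nat.zero_le _⟩

private theorem lb_one (K : Type) [Field K] [LinearOrder K] [IsStrictOrderedRing K] : LB K 1 1 := by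
  let p : Dual K (Fin 1 → K) := LinearMap.proj 0
  let c : Fin (2 * 1) → Dual K (Fin 1 → K) := fun k => if (k : ℕ) = 0 then p else -p
  have hp0 : p (0 : Fin 1 → K) = 0 := map_zero p
  have hp1 : p (fun _ => 1 : Fin 1 → K) = 1 := rfl
  have hx : ∀ x : Fin 1 → K, p x = 0 → x = 0 := by
    intro x h
    funext i
    have hi : i = 0 := Subsingleton.elim _ _
    rw [hi]
    exact h
  have h01 : (0 : K) < 1 := zero_lt_one
  refine ⟨c, 0, fun _ => 1, ⟨?_, ?_, ?_⟩, ?_⟩
  · intro k
    by_cases hk : (k : ℕ) = 0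
    · simp only [c, if_pos hk]
      rw [hp0, hp1]
      exact zero_ne_one
    · simp only [c, if_neg hk, LinearMap.neg_apply]
      rw [hp0, hp1]
      intro h
      have h2 : (0 : K) = -1 := by rw [← h, neg_zero]
      linarith
  · intro x h
    apply hx
    have h2 := h ⟨0, by norm_num⟩
    simp only [c, if_true] at h2
    rw [hp0, hp1] at h2
    exact h2 h01
  · intro x h
    apply hx
    have h2 := h ⟨1, by norm_num⟩
    simp only [c, one_ne_zero, if_false, LinearMap.neg_apply] at h2
    rw [hp0, hp1] at h2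
    have h3 := h2 (by linarith)
    linarith
  · intro n hn
    rcases Nat.eq_zero_or_pos n with h0 | h0
    · exfalso
      subst h0
      obtain ⟨z, hz0, hz1, _⟩ := hn
      have h2 : (0 : Fin 1 → K) = fun _ => 1 := by rw [← hz0, ← hz1]
      have h3 := congrArg p h2
      rw [hp0, hp1] at h3
      exact zero_ne_one h3
    · exact h0

theorem hPRB (h1 : StPRA) : StPRB := by
  intro K _ _ _ hA D1 c u v hsp
  by_contra hn
  have hn' : ∀ n ≤ D1, ¬ Walk c (rhs c u v) n u v := fun n hle hw => hn ⟨n, hle, hw⟩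
  have hD : 0 < D1 := by
    rcases Nat.eq_zero_or_pos D1 with h0 | h0
    · exfalso
      subst h0
      have huv : u = v := Subsingleton.elim _ _
      refine hn' 0 le_rfl ⟨fun _ => u, rfl, huv, fun k => k.elim0, fun i hi => ?_⟩
      exact absurd hi (Nat.not_lt_zero i)
    · exact h0
  have hB : LB K D1 (D1 + 1) := by
    refine ⟨c, u, v, hsp, fun n hw => ?_⟩
    by_contra hlt
    exact hn' n (by omega) hw
  have hk : ∀ k : ℕ, LB K (k * D1) (k * (D1 + 1)) := by
    intro k
    induction k with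
    | zero =>
      rw [Nat.zero_mul, Nat.zero_mul]
      exact lb_zero K
    | succ k ih =>
      rw [Nat.succ_mul, Nat.succ_mul]
      exact lb_add h1 K ih hB
  have hs : ∀ s : ℕ, LB K s s := by
    intro s
    induction s with
    | zero => exact lb_zero K
    | succ s ih => exact lb_add h1 K ih (lb_one K)
  obtain ⟨D, hDD, hall⟩ := hA (2 * D1)
  have hdm : D / D1 * D1 + D % D1 = D := Nat.div_add_mod' D D1
  have hlt : D % D1 < D1 := Nat.mod_lt D hD
  have hk2 : 2 ≤ D / D1 := (Nat.le_div_iff_mul_le hD).2 hDD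
  have hL := lb_add h1 K (hk (D / D1)) (hs (D % D1))
  rw [hdm] at hL
  obtain ⟨c', u', v', hsp', hlow⟩ := hL
  obtain ⟨n, hle, hw⟩ := hall c' u' v' hsp'
  have h2 := hlow n hw
  have h3 : D / D1 * (D1 + 1) + D % D1 = D + D / D1 := by
    have : D / D1 * (D1 + 1) = D / D1 * D1 + D / D1 := Nat.mul_succ _ _
    omega
  rw [h3] at h2
  have h4 : 2 * D1 * (D + D / D1) ≤ (2 * D1 + 1) * D := le_trans (Nat.mul_le_mul_left _ h2) hle
  have h5 : 2 * D1 * (D / D1) ≤ D := by nlinarith
  have h6 : D < (D / D1 + 1) * D1 := by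
    have : (D / D1 + 1) * D1 = D / D1 * D1 + D1 := Nat.succ_mul _ _
    omega
  have h7 : 2 * D1 * (D / D1) < (D / D1 + 1) * D1 := lt_of_le_of_lt h5 h6
  have h8 : D1 * (2 * (D / D1)) < D1 * (D / D1 + 1) := by
    calc D1 * (2 * (D / D1)) = 2 * D1 * (D / D1) := by ring
      _ < (D / D1 + 1) * D1 := h7
      _ = D1 * (D / D1 + 1) := Nat.mul_comm _ _
  have h9 := Nat.lt_of_mul_lt_mul_left h8
  omega

end Pool.Agent.Helper44.CD
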